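import Pool.Agent.Lib.MP_a7239a_co.R3X.MAINX
import Pool.Agent.Lib.MP_a7239a_co.R3.LOW3

/-!
# Weakly zero-exponent-sum-free sets in `ℤ_p ^ 3`: the exact value

For every large prime `p` the largest size of a set in `ℤ_p ^ 3` without `p` distinct elements of
sum `0` is `4 p - 4`.
-/

set_option autoImplicit false

open Finset

namespace Pool.Agent.Lib.MPa7239a.Old.RankThree

open Pool.Agent.Lib.MPa7239a

/-- `tauHat G h` is the largest size of a set `A ⊆ G` such that no `h` distinct elements of `A`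
have sum `0`. -/
noncomputable def tauHat (G : Type*) [AddCommGroup G] (h : ℕ) : ℕ :=
  sSup {k | ∃ A : Finset G, A.card = k ∧ ∀ T ⊆ A, T.card = h → ∑ x ∈ T, x ≠ 0}

theorem result : ∃ p₀ : ℕ, ∀ p : ℕ, p.Prime → p₀ ≤ p → tauHat (Fin 3 → ZMod p) p = 4 * p - 4 := by
  obtain ⟨p₀, h⟩ := R3X.main_x.{0}
  refine ⟨p₀ + 3, ?_⟩
  intro p hpp hp
  classical
  have : Fact p.Prime := ⟨hpp⟩
  have hcard : Nat.card (Fin 3 → ZMod p) = p ^ 3 := by
    rw [Nat.card_eq_fintype_card, Fintype.card_fun, ZMod.card, Fintype.card_fin]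
  have hexp : AddMonoid.exponent (Fin 3 → ZMod p) = p := by
    have h1 : ∀ x : Fin 3 → ZMod p, p • x = 0 := by
      intro x
      funext i
      rw [Pi.smul_apply, nsmul_eq_mul, ZMod.natCast_self, zero_mul, Pi.zero_apply]
    have h2 : AddMonoid.exponent (Fin 3 → ZMod p) ∣ p :=
      AddMonoid.exponent_dvd_iff_forall_nsmul_eq_zero.2 h1
    rcases (Nat.dvd_prime hpp).1 h2 with h3 | h3
    · exfalso
      have h4 := AddMonoid.exponent_nsmul_eq_zero (fun _ : Fin 3 => (1 : ZMod p))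
      rw [h3, one_smul] at h4
      have h5 := congrFun h4 0
      simp at h5
    · exact h3
  set S := {k | ∃ A : Finset (Fin 3 → ZMod p), A.card = k ∧
    ∀ T ⊆ A, T.card = p → ∑ x ∈ T, x ≠ 0} with hS
  have hbdd : BddAbove S := ⟨Fintype.card (Fin 3 → ZMod p), by
    rintro k ⟨A, rfl, _⟩
    exact card_le_univ A⟩
  obtain ⟨A₀, hA₀, hno₀⟩ := R3.low3 hpp (by omega) hexp hcard
  have hmem : 4 * p - 4 ∈ S := ⟨A₀, hA₀, fun T hT hTc hTs => hno₀ ⟨T, hT, hTc, hTs⟩⟩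
  refine le_antisymm ?_ (le_csSup hbdd hmem)
  obtain ⟨A, hA, hA0⟩ := Nat.sSup_mem ⟨_, hmem⟩ hbdd
  by_contra hcon
  push Not at hcon
  have h5 : 4 * p - 3 ≤ #A := by
    have : sSup S = tauHat (Fin 3 → ZMod p) p := rfl
    omega
  obtain ⟨B, hB, hBc⟩ := exists_subset_card_eq h5
  obtain ⟨T, hT, hTc, hTs⟩ := h p (by omega) (Fin 3 → ZMod p) hcard B (by omega)
  exact hA0 T (hT.trans hB) hTc hTs

end Pool.Agent.Lib.MPa7239a.Old.RankThree
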